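import Pool.Agent.Lib.MP_653fdd_gt.Hedge

set_option autoImplicit false

/-! Every plane convex body has an interior point all of whose chords divide the perimeter with
ratio at most a constant smaller than the golden ratio. -/

open MeasureTheory Set

namespace Pool.Agent.Results.MP_653fdd_gt.UniformGoldenBound

/-- the Euclidean plane -/
abbrev Plane : Type := EuclideanSpace ℝ (Fin 2)

/-- a plane convex body: compact, convex, with nonempty interior -/
def IsConvexBody (K : Set Plane) : Prop :=
  IsCompact K ∧ Convex ℝ K ∧ (interior K).Nonempty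

/-- `[p, q]` is a chord of `K` through `x` -/
def IsChord (K : Set Plane) (x p q : Plane) : Prop :=
  p ∈ frontier K ∧ q ∈ frontier K ∧ p ≠ q ∧ x ∈ segment ℝ p q

/-- length (one-dimensional Hausdorff measure) -/
noncomputable def length (S : Set Plane) : ENNReal := Measure.hausdorffMeasure 1 S

/-- `A` and `B` are the two arcs into which `p` and `q` cut the boundary of `K`
(without the points `p`, `q`) -/
def IsArcPair (K : Set Plane) (p q : Plane) (A B : Set Plane) : Prop :=
  IsConnected A ∧ IsConnected B ∧ Disjoint A B ∧ A ∪ B = frontier K \ {p, q}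

/-- `r` is the division ratio of the chord `[p, q]` of `K`: the two arcs have positive finite
lengths `a`, `b` with sum the perimeter, and `r` is the greater one divided by the smaller one -/
def IsDivisionRatio (K : Set Plane) (p q : Plane) (r : ℝ) : Prop :=
  ∃ (A B : Set Plane) (a b : ℝ), IsArcPair K p q A B ∧ 0 < a ∧ 0 < b ∧
    length A = ENNReal.ofReal a ∧ length B = ENNReal.ofReal b ∧
    length (frontier K) = ENNReal.ofReal (a + b) ∧ r = max a b / min a b

theorem result :
    ∀ K : Set Plane, IsConvexBody K →
      ∃ x ∈ interior K, ∃ c : ℝ, c < (1 + Real.sqrt 5) / 2 ∧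
        ∀ p q : Plane, IsChord K x p q →
          (∃! r : ℝ, IsDivisionRatio K p q r) ∧ ∀ r : ℝ, IsDivisionRatio K p q r → r ≤ c := by
  rintro K ⟨hKc, hK, hint⟩
  have hfin : Measure.hausdorffMeasure 1 (frontier K) ≠ ⊤ := by
    have h := Pool.MP_653fdd_gt.Lib.univ_fin hK hKc hint
    rw [Pool.MP_653fdd_gt.Lib.bd_univ] at h
    exact h.ne
  obtain ⟨x, hx, c, hc1, hc, hmain⟩ := Pool.MP_653fdd_gt.Lib.golden_uniform K hK hKc hint
  refine ⟨x, hx, c, hc, ?_⟩
  rintro p q ⟨hp, hq, hpq, hxs⟩
  have cin : ∀ v : Plane, Continuous (fun y : Plane => inner ℝ (y - x) v) := fun v => by fun_prop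
  have m4 : ∀ v : Plane, MeasurableSet {y : Plane | 0 < inner ℝ (y - x) v} := fun v =>
    (isOpen_lt continuous_const (cin v)).measurableSet
  have m5 : ∀ v : Plane, MeasurableSet {y : Plane | inner ℝ (y - x) v < 0} := fun v =>
    (isOpen_lt (cin v) continuous_const).measurableSet
  have hlen : ∀ A B : Set Plane, IsArcPair K p q A B →
      0 < (length A).toReal ∧ 0 < (length B).toReal ∧
        (length A).toReal + (length B).toReal = (length (frontier K)).toReal ∧
        (length A).toReal ≤ c * (length B).toReal ∧
        (length B).toReal ≤ c * (length A).toReal := by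
    rintro A B ⟨hA, hB, -, hU⟩
    obtain ⟨v, hv, rfl, rfl⟩ := Pool.MP_653fdd_gt.Lib.arcs_unique hK hKc hx hp hq hxs hA hB hU
    obtain ⟨h1, h2, h3⟩ := hmain v hv
    obtain ⟨g1, g2, g3⟩ := hmain (-v) (neg_ne_zero.2 hv)
    have e1 : {y : Plane | 0 < inner ℝ (y - x) (-v)} = {y : Plane | inner ℝ (y - x) v < 0} := by
      ext y
      simp only [mem_ofPred_eq, inner_neg_right]
      constructor <;> intro h <;> linarith
    have e2 : {y : Plane | inner ℝ (y - x) (-v) < 0} = {y : Plane | 0 < inner ℝ (y - x) v} := by
      ext y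
      simp only [mem_ofPred_eq, inner_neg_right]
      constructor <;> intro h <;> linarith
    rw [e1] at g1 g3
    rw [e2] at g3
    rw [Pool.MP_653fdd_gt.Lib.bd_apply (m4 v)] at h1 h2 h3 g3
    rw [Pool.MP_653fdd_gt.Lib.bd_apply (m5 v)] at h2 h3 g1 g3
    rw [Pool.MP_653fdd_gt.Lib.bd_univ] at h2
    exact ⟨h1, g1, h2, h3, g3⟩
  have hne : ∀ A : Set Plane, A ⊆ frontier K → length A ≠ ⊤ := fun A hA =>
    ((measure_mono hA).trans_lt hfin.lt_top).ne
  have hratio : ∀ A B : Set Plane, IsArcPair K p q A B → max (length A).toReal (length B).toReal /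
      min (length A).toReal (length B).toReal ≤ c := by
    intro A B hAB
    obtain ⟨h1, h2, -, h3, h4⟩ := hlen A B hAB
    rw [div_le_iff₀ (lt_min h1 h2)]
    rcases le_total (length A).toReal (length B).toReal with h | h
    · rw [max_eq_right h, min_eq_left h]; exact h4
    · rw [max_eq_left h, min_eq_right h]; exact h3
  have hdef : ∀ r : ℝ, IsDivisionRatio K p q r → ∃ A B : Set Plane, IsArcPair K p q A B ∧
      r = max (length A).toReal (length B).toReal / min (length A).toReal (length B).toReal := by
    rintro r ⟨A, B, a, b, hAB, ha, hb, hA, hB, -, rfl⟩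
    refine ⟨A, B, hAB, ?_⟩
    rw [hA, hB, ENNReal.toReal_ofReal ha.le, ENNReal.toReal_ofReal hb.le]
  refine ⟨?_, fun r hr => ?_⟩
  · obtain ⟨A, B, hA, hB, hAB, hU⟩ := Pool.MP_653fdd_gt.Lib.arcs_exist hK hKc hx hp hq hxs
    have hAB' : IsArcPair K p q A B := ⟨hA, hB, hAB, hU⟩
    have hAf : A ⊆ frontier K := fun y hy =>
      (hU ▸ mem_union_left B hy : y ∈ frontier K \ {p, q}).1
    have hBf : B ⊆ frontier K := fun y hy =>
      (hU ▸ mem_union_right A hy : y ∈ frontier K \ {p, q}).1
    obtain ⟨h1, h2, h3, -⟩ := hlen A B hAB'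
    refine ⟨max (length A).toReal (length B).toReal / min (length A).toReal (length B).toReal,
      ⟨A, B, (length A).toReal, (length B).toReal, hAB', h1, h2,
        (ENNReal.ofReal_toReal (hne A hAf)).symm, (ENNReal.ofReal_toReal (hne B hBf)).symm, ?_,
        rfl⟩, ?_⟩
    · rw [h3]; exact (ENNReal.ofReal_toReal hfin).symm
    intro r hr
    obtain ⟨A', B', ⟨hA', hB', -, hU'⟩, rfl⟩ := hdef r hr
    -- both decompositions are the one into the components
    have key : (A' = A ∧ B' = B) ∨ (A' = B ∧ B' = A) := by
      obtain ⟨v, hv, eA, eB⟩ := Pool.MP_653fdd_gt.Lib.arcs_unique hK hKc hx hp hq hxs hA hB hU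
      have oU : IsOpen {y : Plane | 0 < inner ℝ (y - x) v} := isOpen_lt continuous_const (cin v)
      have oV : IsOpen {y : Plane | inner ℝ (y - x) v < 0} := isOpen_lt (cin v) continuous_const
      have dUV : Disjoint {y : Plane | 0 < inner ℝ (y - x) v}
          {y : Plane | inner ℝ (y - x) v < 0} := by
        rw [Set.disjoint_left]
        intro y h1 h2
        rw [mem_ofPred_eq] at h1 h2
        linarith
      have hsub : ∀ C : Set Plane, IsConnected C → C ⊆ frontier K \ {p, q} → C ⊆ A ∨ C ⊆ B := by
        intro C hC hC2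
        have hC3 : C ⊆ {y : Plane | 0 < inner ℝ (y - x) v} ∪ {y : Plane | inner ℝ (y - x) v < 0} := by
          intro y hy
          have := hC2 hy
          rw [← hU] at this
          rcases this with h | h
          · left; rw [eA] at h; exact h.2
          · right; rw [eB] at h; exact h.2
        rcases hC.isPreconnected.subset_or_subset oU oV dUV hC3 with h | h
        · left; rw [eA]; exact fun y hy => ⟨(hC2 hy).1, h hy⟩
        · right; rw [eB]; exact fun y hy => ⟨(hC2 hy).1, h hy⟩
      have hA1 := hsub A' hA' (hU' ▸ subset_union_left)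
      have hB1 := hsub B' hB' (hU' ▸ subset_union_right)
      have hUU : A' ∪ B' = A ∪ B := by rw [hU, hU']
      obtain ⟨a, ha⟩ := hA.nonempty
      obtain ⟨b, hb⟩ := hB.nonempty
      have hd : ∀ y, y ∈ A → y ∈ B → False := fun y h1 h2 => Set.disjoint_left.1 hAB h1 h2
      have hcov : ∀ y, y ∈ A ∨ y ∈ B → y ∈ A' ∨ y ∈ B' := fun y hy => by
        have : y ∈ A' ∪ B' := by rw [hUU]; exact hy
        exact this
      rcases hA1 with h1 | h1 <;> rcases hB1 with h2 | h2
      · exfalso
        rcases hcov b (Or.inr hb) with h | h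
        · exact hd b (h1 h) hb
        · exact hd b (h2 h) hb
      · left
        constructor
        · refine Subset.antisymm h1 (fun y hy => ?_)
          rcases hcov y (Or.inl hy) with h | h
          · exact h
          · exact (hd y hy (h2 h)).elim
        · refine Subset.antisymm h2 (fun y hy => ?_)
          rcases hcov y (Or.inr hy) with h | h
          · exact (hd y (h1 h) hy).elim
          · exact h
      · right
        constructor
        · refine Subset.antisymm h1 (fun y hy => ?_)
          rcases hcov y (Or.inr hy) with h | h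
          · exact h
          · exact (hd y (h2 h) hy).elim
        · refine Subset.antisymm h2 (fun y hy => ?_)
          rcases hcov y (Or.inl hy) with h | h
          · exact (hd y hy (h1 h)).elim
          · exact h
      · exfalso
        rcases hcov a (Or.inl ha) with h | h
        · exact hd a ha (h1 h)
        · exact hd a ha (h2 h)
    rcases key with ⟨rfl, rfl⟩ | ⟨rfl, rfl⟩
    · rfl
    · rw [max_comm, min_comm]
  · obtain ⟨A, B, hAB, rfl⟩ := hdef r hr
    exact hratio A B hAB

end Pool.Agent.Results.MP_653fdd_gt.UniformGoldenBound
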